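import Pool.Agent.D0H45.PG.Stm

/-!
# Module SUM2 of project PG of helper45 (MP_3998cf_nt): sums of two square roots of primes, the second of them small
-/

set_option autoImplicit false

namespace Pool.Agent.D0H49.PG

open Finset Pool.Agent.Q240.KS Pool.Agent.D0H45.PG

/-- a finite set of natural numbers with pairwise distances at most `D` has at most `D + 1` elements -/
lemma card_le (F : Finset ℕ) (D : ℝ) (hD : 0 ≤ D) (h : ∀ a ∈ F, ∀ b ∈ F, (b : ℝ) - a ≤ D) :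
    (F.card : ℝ) ≤ D + 1 := by
  rcases F.eq_empty_or_nonempty with rfl | hne
  · simp only [Finset.card_empty, Nat.cast_zero]
    linarith
  · have hm := F.min'_mem hne
    have hsub : F ⊆ Finset.Icc (F.min' hne) (F.min' hne + ⌊D⌋₊) := by
      intro b hb
      rw [Finset.mem_Icc]
      refine ⟨F.min'_le b hb, ?_⟩
      have h1 := h _ hm b hb
      have h2 : F.min' hne ≤ b := F.min'_le b hb
      have h3 : ((b - F.min' hne : ℕ) : ℝ) ≤ D := by
        rw [Nat.cast_sub h2]; exact h1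
      have := Nat.le_floor h3
      omega
    have h4 := Finset.card_le_card hsub
    rw [Nat.card_Icc] at h4
    have h5 : F.card ≤ ⌊D⌋₊ + 1 := by omega
    have h6 : (F.card : ℝ) ≤ (⌊D⌋₊ : ℝ) + 1 := by exact_mod_cast h5
    have := Nat.floor_le hD
    linarith

/-- a finite set `P` with a map to a finite set `T`, all fibres of which have at most `K` elements -/
lemma card_fib (P : Finset ℕ) (T : Set ℝ) (hT : T.Finite) (f : ℕ → ℝ) (hf : ∀ q ∈ P, f q ∈ T) (K : ℝ)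
    (hK : ∀ t : ℝ, ((P.filter (fun q => f q = t)).card : ℝ) ≤ K) : (P.card : ℝ) ≤ (T.ncard : ℝ) * K := by
  classical
  have h1 : P.card = ∑ t ∈ hT.toFinset, (P.filter (fun q => f q = t)).card :=
    Finset.card_eq_sum_card_fiberwise (fun q hq => by
      rw [Finset.mem_coe, hT.mem_toFinset]
      exact hf q hq)
  rw [h1, Set.ncard_eq_toFinset_card T hT]
  push_cast
  calc ∑ t ∈ hT.toFinset, ((P.filter (fun q => f q = t)).card : ℝ) ≤ ∑ _t ∈ hT.toFinset, K :=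
        Finset.sum_le_sum (fun t _ => hK t)
    _ = (hT.toFinset.card : ℝ) * K := by rw [Finset.sum_const, nsmul_eq_mul]

/-- a prime in an interval which is not poor -/
lemma exists_prime (c y H : ℝ) (hc : 0 < c) (hy : 3 ≤ y) (hH : 0 < H)
    (h : c * H / Real.log y ≤ (pic y H : ℝ)) : ∃ p : ℕ, p.Prime ∧ y < p ∧ (p : ℝ) ≤ y + H := by
  have hl : 0 < Real.log y := Real.log_pos (by linarith)
  have h0 : 0 < c * H / Real.log y := by positivity
  have h1 : (0 : ℝ) < (pic y H : ℝ) := lt_of_lt_of_le h0 h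
  have h2 : 0 < pic y H := by exact_mod_cast h1
  unfold pic at h2
  rw [Finset.card_pos] at h2
  obtain ⟨p, hp⟩ := h2
  rw [Finset.mem_filter, Finset.mem_Ioc] at hp
  refine ⟨p, hp.2, (Nat.floor_lt (by linarith)).1 hp.1.1, ?_⟩
  exact le_trans (by exact_mod_cast hp.1.2) (Nat.floor_le (by linarith))

/-- differences of the squares `(τ - √q)²` -/
lemma diff_le (τ R y a b E : ℝ) (_hR : 0 < R) (hτ : 0 < τ) (hRτ : 2 * R ≤ τ) (ha : 0 ≤ a) (hb : 0 ≤ b)
    (haR : √a ≤ R) (hbR : √b ≤ R) (hE : 0 ≤ E)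
    (h1 : (τ - √a) ^ 2 ≤ y)
    (h4 : y ≤ (τ - √b) ^ 2 + E) : b - a ≤ 2 * R * E / τ := by
  rw [le_div_iff₀ hτ]
  have hsa := Real.sq_sqrt ha
  have hsb := Real.sq_sqrt hb
  have pa := Real.sqrt_nonneg a
  have pb := Real.sqrt_nonneg b
  set u := √a
  set v := √b
  rcases le_total v u with hvu | huv
  · have : b ≤ a := by nlinarith
    have h5 : (b - a) * τ ≤ 0 := mul_nonpos_of_nonpos_of_nonneg (by linarith) hτ.le
    have h6 : 0 ≤ 2 * R * E := by positivity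
    linarith
  · -- (τ - u)^2 - (τ - v)^2 = (v - u) (2 τ - u - v) ≥ (v - u) τ
    have h5 : (v - u) * τ ≤ E := by nlinarith [mul_nonneg (sub_nonneg.2 huv) (by linarith : (0:ℝ) ≤ τ - u - v)]
    have h6 : b - a = (v - u) * (v + u) := by nlinarith
    rw [h6]
    have h7 : (v - u) * (v + u) * τ = (v + u) * ((v - u) * τ) := by ring
    rw [h7]
    calc (v + u) * ((v - u) * τ) ≤ (v + u) * E := mul_le_mul_of_nonneg_left h5 (by linarith)
      _ ≤ (2 * R) * E := mul_le_mul_of_nonneg_right (by linarith) hE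

/-- a prime just above `s²` has its square root just above `s` -/
lemma sqrt_close (τ s η p : ℝ) (hη0 : 0 < η) (hη1 : 2 * η ≤ 1) (hτ : 1 ≤ τ) (hs : τ / 2 ≤ s)
    (hp1 : s ^ 2 < p) (hp2 : p ≤ s ^ 2 + (s ^ 2) ^ (1 - 1 / 2 - η)) : s < √p ∧ √p ≤ s + τ ^ (-2 * η) := by
  have hs0 : 0 < s := by linarith
  have hτ0 : 0 < τ := by linarith
  refine ⟨Real.lt_sqrt_of_sq_lt hp1, ?_⟩
  have hδ : 0 < τ ^ (-2 * η) := Real.rpow_pos_of_pos hτ0 _
  rw [Real.sqrt_le_left (by linarith)]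
  have e1 : (s ^ 2) ^ (1 - 1 / 2 - η) = s * s ^ (-2 * η) := by
    rw [← Real.rpow_natCast s 2, ← Real.rpow_mul hs0.le]
    conv_rhs => rw [← Real.rpow_one s]
    rw [← Real.rpow_mul hs0.le, ← Real.rpow_add hs0]
    congr 1
    push_cast
    ring
  have e2 : s ^ (-2 * η) ≤ 2 * τ ^ (-2 * η) := by
    calc s ^ (-2 * η) ≤ (τ / 2) ^ (-2 * η) :=
          Real.rpow_le_rpow_of_nonpos (by linarith) hs (by linarith)
      _ = τ ^ (-2 * η) * 2 ^ (2 * η) := by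
          rw [Real.div_rpow hτ0.le (by norm_num), div_eq_mul_inv, ← Real.rpow_neg (by norm_num)]
          congr 2
          ring
      _ ≤ τ ^ (-2 * η) * 2 ^ (1 : ℝ) := by
          apply mul_le_mul_of_nonneg_left _ hδ.le
          exact Real.rpow_le_rpow_of_exponent_le (by norm_num) hη1
      _ = 2 * τ ^ (-2 * η) := by rw [Real.rpow_one]; ring
  have e3 : s * s ^ (-2 * η) ≤ s * (2 * τ ^ (-2 * η)) := mul_le_mul_of_nonneg_left e2 hs0.le
  rw [e1] at hp2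
  nlinarith [sq_nonneg (τ ^ (-2 * η))]

/-- Module SUM2. -/
theorem t_SUM2 : S_SUM2 := by
  classical
  rintro ⟨b, X₀, hb, hX₀⟩ c η x₀ S hG
  obtain ⟨C, hC⟩ := hG.count
  have hη0 := hG.η0
  have hη1 := hG.η1
  have hη2 := hG.η2
  have hc := hG.c0
  have hx0 := hG.x0
  have E2 : ∀ᶠ τ : ℝ in Filter.atTop, X₀ ≤ τ ^ (1.23 : ℝ) :=
    (tendsto_rpow_atTop (by norm_num)).eventually_ge_atTop X₀
  have E3 : ∀ᶠ τ : ℝ in Filter.atTop, 2 ≤ τ ^ (0.385 : ℝ) :=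
    (tendsto_rpow_atTop (by norm_num)).eventually_ge_atTop 2
  have E4 : ∀ᶠ τ : ℝ in Filter.atTop, 4 * x₀ ≤ τ := Filter.eventually_ge_atTop _
  have E5 : ∀ᶠ τ : ℝ in Filter.atTop, 6000000 * (|C| + 1) < b * τ ^ (0.00054 : ℝ) :=
    (Filter.Tendsto.const_mul_atTop hb (tendsto_rpow_atTop (by norm_num))).eventually_gt_atTop _
  obtain ⟨τ₀, hτ₀⟩ := Filter.eventually_atTop.1 (E2.and (E3.and (E4.and E5)))
  refine ⟨τ₀, fun τ hτ => ?_⟩
  obtain ⟨hQ, h385, hx, hbig⟩ := hτ₀ τ hτ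
  have hτ1 : 1 < τ := by linarith
  have hτ0 : 0 < τ := by linarith
  by_contra hcon
  push Not at hcon
  set Q : ℝ := τ ^ (1.23 : ℝ) with hQdef
  set R : ℝ := τ ^ (0.615 : ℝ) with hRdef
  have hR0 : 0 < R := Real.rpow_pos_of_pos hτ0 _
  have hR2 : R ^ 2 = Q := by
    rw [hRdef, hQdef, ← Real.rpow_natCast, ← Real.rpow_mul hτ0.le]
    norm_num
  have hRτ : 2 * R ≤ τ := by
    have h1 : R * τ ^ (0.385 : ℝ) = τ := by
      rw [hRdef, ← Real.rpow_add hτ0]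
      norm_num
    nlinarith
  have hQ1 : 1 < Q := Real.one_lt_rpow hτ1 (by norm_num)
  set P : Finset ℕ := (Ioc ⌊Q / 4⌋₊ ⌊Q⌋₊).filter Nat.Prime with hP
  have hPQ : ∀ q ∈ P, q.Prime ∧ (q : ℝ) ≤ Q ∧ √(q : ℝ) ≤ R := by
    intro q hq
    rw [hP, Finset.mem_filter, Finset.mem_Ioc] at hq
    have h1 : (q : ℝ) ≤ Q := le_trans (by exact_mod_cast hq.1.2) (Nat.floor_le (by linarith))
    refine ⟨hq.2, h1, ?_⟩
    rw [Real.sqrt_le_left hR0.le, hR2]
    exact h1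
  set E : ℝ := (τ ^ 2) ^ (1 - 1 / 2 - η) with hE
  have hE0 : 0 ≤ E := by positivity
  have hEτ : E ≤ τ := by
    rw [hE, ← Real.rpow_natCast, ← Real.rpow_mul hτ0.le]
    calc τ ^ (((2 : ℕ) : ℝ) * (1 - 1 / 2 - η)) ≤ τ ^ (1 : ℝ) :=
          Real.rpow_le_rpow_of_exponent_le hτ1.le (by push_cast; linarith)
      _ = τ := Real.rpow_one τ
  -- bounds of `y`
  have hs : ∀ q ∈ P, τ / 2 ≤ τ - √(q : ℝ) := fun q hq => by
    have := (hPQ q hq).2.2
    linarith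
  have hs' : ∀ q : ℕ, τ - √(q : ℝ) ≤ τ := fun q => by
    have := Real.sqrt_nonneg (q : ℝ)
    linarith
  have hy1 : ∀ q ∈ P, x₀ ≤ (τ - √(q : ℝ)) ^ 2 := fun q hq => by
    have h1 := hs q hq
    nlinarith
  have hy2 : ∀ q ∈ P, (τ - √(q : ℝ)) ^ 2 ≤ τ ^ 2 := fun q hq =>
    pow_le_pow_left₀ (by linarith [hs q hq]) (hs' q) 2
  have hyE : ∀ q ∈ P, ((τ - √(q : ℝ)) ^ 2) ^ (1 - 1 / 2 - η) ≤ E := fun q hq =>
    Real.rpow_le_rpow (by positivity) (hy2 q hq) (by linarith)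
  -- all intervals are poor
  have hpoor : ∀ q ∈ P, ∃ t : ℝ, t ∈ S ∧ (τ - √(q : ℝ)) ^ 2 ≤ t ∧ t ≤ (τ - √(q : ℝ)) ^ 2 + E := by
    intro q hq
    have hn := hG.near _ (hy1 q hq)
    by_cases hpo : (pic ((τ - √(q : ℝ)) ^ 2) (((τ - √(q : ℝ)) ^ 2) ^ (1 - 1 / 2 - η)) : ℝ) <
        c * ((τ - √(q : ℝ)) ^ 2) ^ (1 - 1 / 2 - η) / Real.log ((τ - √(q : ℝ)) ^ 2)
    · obtain ⟨t, h1, h2, h3⟩ := hn hpo
      exact ⟨t, h1, h2, by linarith [hyE q hq]⟩
    · exfalso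
      rw [not_lt] at hpo
      have h1 := hy1 q hq
      obtain ⟨p, hp, hp1, hp2⟩ := exists_prime c ((τ - √(q : ℝ)) ^ 2) _ hc (by linarith)
        (Real.rpow_pos_of_pos (by linarith) _) hpo
      obtain ⟨h3, h4⟩ := sqrt_close τ (τ - √(q : ℝ)) η p hη0 (by linarith) hτ1.le (hs q hq) hp1 hp2
      have h5 := hcon p q hp (hPQ q hq).1 (hPQ q hq).2.1 (by linarith)
      linarith
  choose! f hf using hpoor
  -- the count
  have hX : (1 : ℝ) ≤ 2 * τ ^ 2 := by nlinarith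
  obtain ⟨hfin, hcard⟩ := hC (2 * τ ^ 2) hX
  have hmaps : ∀ q ∈ P, f q ∈ {t | t ∈ S ∧ t ≤ 2 * τ ^ 2} := by
    intro q hq
    obtain ⟨h1, h2, h3⟩ := hf q hq
    refine ⟨h1, ?_⟩
    have h4 := hy2 q hq
    nlinarith
  have hD0 : 0 ≤ 2 * R * E / τ := by positivity
  have hfib : ∀ t : ℝ, ((P.filter (fun q => f q = t)).card : ℝ) ≤ 2 * R * E / τ + 1 := by
    intro t
    apply card_le _ _ hD0
    intro q hq q' hq'
    rw [Finset.mem_filter] at hq hq'
    obtain ⟨-, h1, h2⟩ := hf q hq.1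
    obtain ⟨-, h3, h4⟩ := hf q' hq'.1
    rw [hq.2] at h1 h2
    rw [hq'.2] at h3 h4
    exact diff_le τ R t q q' E hR0 hτ0 hRτ (Nat.cast_nonneg _) (Nat.cast_nonneg _) (hPQ q hq.1).2.2
      (hPQ q' hq'.1).2.2 hE0 h1 h4
  have hcount := card_fib P _ hfin f hmaps _ hfib
  -- numerical bounds
  have hN : (({t | t ∈ S ∧ t ≤ 2 * τ ^ 2} : Set ℝ).ncard : ℝ) ≤ |C| * (2 * τ ^ (0.612 : ℝ)) := by
    calc (({t | t ∈ S ∧ t ≤ 2 * τ ^ 2} : Set ℝ).ncard : ℝ) ≤ C * (2 * τ ^ 2) ^ (0.306 - η) := hcard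
      _ ≤ |C| * (2 * τ ^ 2) ^ (0.306 - η) :=
          mul_le_mul_of_nonneg_right (le_abs_self C) (by positivity)
      _ ≤ |C| * (2 * τ ^ (0.612 : ℝ)) := by
          apply mul_le_mul_of_nonneg_left _ (abs_nonneg C)
          calc (2 * τ ^ 2) ^ (0.306 - η) ≤ (2 * τ ^ 2) ^ (0.306 : ℝ) :=
                Real.rpow_le_rpow_of_exponent_le hX (by linarith)
            _ = 2 ^ (0.306 : ℝ) * τ ^ (0.612 : ℝ) := by
                rw [Real.mul_rpow (by norm_num) (by positivity), ← Real.rpow_natCast τ 2,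
                  ← Real.rpow_mul hτ0.le]
                norm_num
            _ ≤ 2 ^ (1 : ℝ) * τ ^ (0.612 : ℝ) := by
                apply mul_le_mul_of_nonneg_right _ (by positivity)
                exact Real.rpow_le_rpow_of_exponent_le (by norm_num) (by norm_num)
            _ = 2 * τ ^ (0.612 : ℝ) := by rw [Real.rpow_one]
  have hR1 : 1 ≤ R := Real.one_le_rpow hτ1.le (by norm_num)
  have hK : 2 * R * E / τ + 1 ≤ 3 * R := by
    have h1 : 2 * R * E / τ ≤ 2 * R := by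
      rw [div_le_iff₀ hτ0]
      exact mul_le_mul_of_nonneg_left hEτ (by linarith)
    linarith
  have hPc : (P.card : ℝ) ≤ |C| * (2 * τ ^ (0.612 : ℝ)) * (3 * R) := by
    refine hcount.trans ?_
    exact mul_le_mul hN hK (by linarith) (by positivity)
  have hlQ : 0 < Real.log Q := Real.log_pos hQ1
  have hch := (div_le_iff₀ (by positivity)).1 (hX₀ Q hQ)
  have hlog : Real.log Q ≤ 1000 * τ ^ (0.00123 : ℝ) := by
    have h1 := Real.log_le_rpow_div (x := Q) (ε := 0.001) (by linarith) (by norm_num)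
    have h2 : Q ^ (0.001 : ℝ) = τ ^ (0.00123 : ℝ) := by
      rw [hQdef, ← Real.rpow_mul hτ0.le]
      norm_num
    rw [h2] at h1
    calc Real.log Q ≤ τ ^ (0.00123 : ℝ) / 0.001 := h1
      _ = 1000 * τ ^ (0.00123 : ℝ) := by ring
  have hlog2 : Real.log Q ^ 2 ≤ 1000000 * τ ^ (0.00246 : ℝ) := by
    calc Real.log Q ^ 2 ≤ (1000 * τ ^ (0.00123 : ℝ)) ^ 2 := pow_le_pow_left₀ hlQ.le hlog 2
      _ = 1000000 * τ ^ (0.00246 : ℝ) := by
          rw [mul_pow, ← Real.rpow_natCast (τ ^ (0.00123 : ℝ)) 2, ← Real.rpow_mul hτ0.le]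
          norm_num
  have hfinal : b * Q ≤ (|C| * (2 * τ ^ (0.612 : ℝ)) * (3 * R)) * (1000000 * τ ^ (0.00246 : ℝ)) := by
    refine hch.trans ?_
    exact mul_le_mul hPc hlog2 (by positivity) (by positivity)
  have e1 : (|C| * (2 * τ ^ (0.612 : ℝ)) * (3 * R)) * (1000000 * τ ^ (0.00246 : ℝ)) =
      6000000 * |C| * τ ^ (1.22946 : ℝ) := by
    have : τ ^ (1.22946 : ℝ) = τ ^ (0.612 : ℝ) * R * τ ^ (0.00246 : ℝ) := by
      rw [hRdef, ← Real.rpow_add hτ0, ← Real.rpow_add hτ0]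
      norm_num
    rw [this]
    ring
  have e2 : Q = τ ^ (0.00054 : ℝ) * τ ^ (1.22946 : ℝ) := by
    rw [hQdef, ← Real.rpow_add hτ0]
    norm_num
  rw [e1, e2] at hfinal
  have hpos : 0 < τ ^ (1.22946 : ℝ) := Real.rpow_pos_of_pos hτ0 _
  have h7 : b * τ ^ (0.00054 : ℝ) ≤ 6000000 * |C| := by
    by_contra h
    rw [not_le] at h
    have := mul_lt_mul_of_pos_right h hpos
    nlinarith
  linarith

end Pool.Agent.D0H49.PG
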